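import Mathlib

/-!
Weighted sums over families of colourings: comparison of two free colours.
-/

set_option autoImplicit false
set_option linter.unusedSectionVars false

namespace Pool.Agent.Run7.H86.CR

open Finset

variable {V K : Type*} [Fintype V] [DecidableEq V] [Fintype K] [DecidableEq K]

/-- number of vertices coloured `a` -/
def cnt (a : K) (σ : V → K) : ℕ := (univ.filter (fun v => σ v = a)).card

/-- weight of a colouring: `x` to the number of vertices coloured `a` -/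
noncomputable def wt (a : K) (x : ℝ) (σ : V → K) : ℝ := x ^ cnt a σ

lemma wt_nonneg (a : K) {x : ℝ} (hx : 0 ≤ x) (σ : V → K) : 0 ≤ wt a x σ := pow_nonneg hx _

lemma swapσ_swapσ (a c : K) (σ : V → K) :
    (fun v => Equiv.swap a c ((fun v => Equiv.swap a c (σ v)) v)) = σ := by
  funext v; simp

/-- swapping preserves sums over suitable families -/
lemma sum_swap (S : Finset (V → K)) (a c : K) (p q : (V → K) → Prop) [DecidablePred p]
    [DecidablePred q] (hS : ∀ σ ∈ S, (fun v => Equiv.swap a c (σ v)) ∈ S)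
    (hpq : ∀ σ ∈ S, p σ ↔ q (fun v => Equiv.swap a c (σ v)))
    (f g : (V → K) → ℝ) (hfg : ∀ σ, f σ = g (fun v => Equiv.swap a c (σ v))) :
    ∑ σ ∈ S with p σ, f σ = ∑ σ ∈ S with q σ, g σ := by
  refine Finset.sum_bij' (fun σ _ => fun v => Equiv.swap a c (σ v))
    (fun σ _ => fun v => Equiv.swap a c (σ v)) ?_ ?_ ?_ ?_ ?_
  · intro σ hσ
    rw [mem_filter] at hσ ⊢
    exact ⟨hS σ hσ.1, (hpq σ hσ.1).1 hσ.2⟩
  · intro σ hσ
    rw [mem_filter] at hσ ⊢
    refine ⟨hS σ hσ.1, (hpq _ (hS σ hσ.1)).2 ?_⟩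
    have := swapσ_swapσ a c σ
    rw [this]
    exact hσ.2
  · intro σ _
    exact swapσ_swapσ a c σ
  · intro σ _
    exact swapσ_swapσ a c σ
  · intro σ _
    exact hfg σ

lemma cnt_swap (a c : K) (σ : V → K) :
    cnt c (fun v => Equiv.swap a c (σ v)) = cnt a σ := by
  unfold cnt
  congr 1
  ext v
  simp only [mem_filter, mem_univ, true_and]
  constructor
  · intro h
    have := congrArg (Equiv.swap a c) h
    simpa using this
  · intro h
    simp [h]

/-- Comparison lemma, single vertex. -/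
theorem lemB (S : Finset (V → K)) (a c : K) (Φ : Finset K) (F : Finset V) (haΦ : a ∈ Φ)
    (hcΦ : c ∈ Φ) (hac : a ≠ c)
    (hS : ∀ d ∈ Φ, ∀ σ ∈ S, (fun v => Equiv.swap a d (σ v)) ∈ S)
    (hF : ∀ σ ∈ S, ∀ v, v ∉ F → σ v ∉ Φ)
    (hcard : F.card ≤ Φ.card) (y : V) (x : ℝ) (hx0 : 0 ≤ x) (hx1 : x ≤ 1) :
    ∑ σ ∈ S with σ y = a, wt a x σ ≤ ∑ σ ∈ S with σ y = c, wt a x σ := by
  classical
  by_cases hy : y ∈ F
  swap
  · have h1 : (S.filter (fun σ => σ y = a)) = ∅ := by
      rw [filter_eq_empty_iff]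
      intro σ hσ h
      exact hF σ hσ y hy (h ▸ haΦ)
    rw [h1, sum_empty]
    exact sum_nonneg (fun σ _ => wt_nonneg a hx0 σ)
  -- the common number of colourings
  have hT : (∑ σ ∈ S with σ y = a, (1 : ℝ)) = ∑ σ ∈ S with σ y = c, (1 : ℝ) := by
    refine sum_swap S a c _ _ (hS c hcΦ) ?_ _ _ (fun _ => rfl)
    intro σ _
    constructor
    · intro h; simp [h]
    · intro h
      have := congrArg (Equiv.swap a c) h
      simpa using this
  set T : ℝ := ∑ σ ∈ S with σ y = c, (1 : ℝ) with hTdef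
  have hL : ∑ σ ∈ S with σ y = a, wt a x σ ≤ x * T := by
    rw [← hT, mul_sum]
    apply sum_le_sum
    intro σ hσ
    rw [mem_filter] at hσ
    have h1 : 1 ≤ cnt a σ := by
      unfold cnt
      rw [Nat.one_le_iff_ne_zero, Finset.card_ne_zero]
      exact ⟨y, by simp [hσ.2]⟩
    unfold wt
    rw [mul_one]
    calc x ^ cnt a σ ≤ x ^ 1 := pow_le_pow_of_le_one hx0 hx1 h1
      _ = x := pow_one x
  -- the average number of vertices coloured `d`
  have hn : ∀ d ∈ Φ.erase c, (∑ σ ∈ S with σ y = c, (cnt d σ : ℝ)) =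
      ∑ σ ∈ S with σ y = c, (cnt a σ : ℝ) := by
    intro d hd
    rw [mem_erase] at hd
    symm
    refine sum_swap S a d _ _ (hS d hd.2) ?_ _ _ ?_
    · intro σ _
      constructor
      · intro h
        show Equiv.swap a d (σ y) = c
        rw [h, Equiv.swap_apply_of_ne_of_ne hac.symm hd.1.symm]
      · intro h
        have := congrArg (Equiv.swap a d) h
        rw [Equiv.swap_apply_self, Equiv.swap_apply_of_ne_of_ne hac.symm hd.1.symm] at this
        exact this
    · intro σ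
      rw [cnt_swap]
  have hsum : ((Φ.card : ℝ) - 1) * (∑ σ ∈ S with σ y = c, (cnt a σ : ℝ)) ≤
      ((F.card : ℝ) - 1) * T := by
    have h1 : ((Φ.card : ℝ) - 1) * (∑ σ ∈ S with σ y = c, (cnt a σ : ℝ)) =
        ∑ d ∈ Φ.erase c, ∑ σ ∈ S with σ y = c, (cnt d σ : ℝ) := by
      rw [sum_congr rfl hn, sum_const, card_erase_of_mem hcΦ, nsmul_eq_mul]
      have : 1 ≤ Φ.card := Finset.card_pos.2 ⟨c, hcΦ⟩
      push_cast [Nat.cast_sub this]
      ring
    rw [h1, sum_comm, hTdef, mul_sum]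
    apply sum_le_sum
    intro σ hσ
    rw [mem_filter] at hσ
    rw [mul_one]
    have h2 : (∑ d ∈ Φ.erase c, cnt d σ) ≤ (F.erase y).card := by
      unfold cnt
      rw [← Finset.card_biUnion]
      · apply Finset.card_le_card
        intro v hv
        rw [mem_biUnion] at hv
        obtain ⟨d, hd, hv⟩ := hv
        rw [mem_filter] at hv
        rw [mem_erase] at hd ⊢
        constructor
        · rintro rfl
          exact hd.1 (hv.2.symm.trans hσ.2)
        · by_contra hvF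
          exact hF σ hσ.1 v hvF (hv.2 ▸ hd.2)
      · intro d _ d' _ hdd'
        show Disjoint (univ.filter (fun v => σ v = d)) (univ.filter (fun v => σ v = d'))
        rw [Finset.disjoint_left]
        intro v hv hv'
        rw [mem_filter] at hv hv'
        exact hdd' (hv.2.symm.trans hv'.2)
    rw [card_erase_of_mem hy] at h2
    have h3 : 1 ≤ F.card := Finset.card_pos.2 ⟨y, hy⟩
    have h4 : (((∑ d ∈ Φ.erase c, cnt d σ : ℕ)) : ℝ) ≤ ((F.card - 1 : ℕ) : ℝ) := by
      exact_mod_cast h2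
    push_cast [Nat.cast_sub h3] at h4
    exact h4
  have hΦ2 : (1 : ℝ) ≤ (Φ.card : ℝ) - 1 := by
    have : 1 < Φ.card := Finset.one_lt_card.2 ⟨a, haΦ, c, hcΦ, hac⟩
    have h : ((2 : ℕ) : ℝ) ≤ (Φ.card : ℝ) := by exact_mod_cast this
    push_cast at h
    linarith
  have hT0 : 0 ≤ T := sum_nonneg (fun _ _ => zero_le_one)
  have hle : (∑ σ ∈ S with σ y = c, (cnt a σ : ℝ)) ≤ T := by
    have h1 : ((F.card : ℝ) - 1) * T ≤ ((Φ.card : ℝ) - 1) * T := by
      apply mul_le_mul_of_nonneg_right _ hT0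
      have : (F.card : ℝ) ≤ (Φ.card : ℝ) := by exact_mod_cast hcard
      linarith
    have h2 := hsum.trans h1
    exact le_of_mul_le_mul_left h2 (by linarith)
  have hR : x * T ≤ ∑ σ ∈ S with σ y = c, wt a x σ := by
    have h1 : ∀ σ : V → K, 1 - (1 - x) * (cnt a σ : ℝ) ≤ wt a x σ := by
      intro σ
      unfold wt
      have := one_add_mul_le_pow (a := x - 1) (by linarith) (cnt a σ)
      have h2 : (1 + (x - 1)) ^ cnt a σ = x ^ cnt a σ := by congr 1; ring
      rw [h2] at this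
      nlinarith
    calc x * T ≤ T - (1 - x) * (∑ σ ∈ S with σ y = c, (cnt a σ : ℝ)) := by nlinarith
      _ = ∑ σ ∈ S with σ y = c, (1 - (1 - x) * (cnt a σ : ℝ)) := by
          rw [sum_sub_distrib, mul_sum]
      _ ≤ _ := sum_le_sum (fun σ _ => h1 σ)
  exact hL.trans hR

/-- Comparison lemma, set of vertices. -/
theorem lemA (S : Finset (V → K)) (a c : K) (Φ : Finset K) (F : Finset V) (haΦ : a ∈ Φ)
    (hcΦ : c ∈ Φ) (hac : a ≠ c)
    (hS : ∀ d ∈ Φ, ∀ σ ∈ S, (fun v => Equiv.swap a d (σ v)) ∈ S)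
    (hF : ∀ σ ∈ S, ∀ v, v ∉ F → σ v ∉ Φ)
    (hcard : F.card ≤ Φ.card) (x : ℝ) (hx0 : 0 ≤ x) (hx1 : x ≤ 1) (N : Finset V) :
    ∑ σ ∈ S with (∃ y ∈ N, σ y = a), wt a x σ ≤ ∑ σ ∈ S with (∃ y ∈ N, σ y = c), wt a x σ := by
  classical
  induction N using Finset.induction_on with
  | empty => simp
  | insert y N hyN ih =>
    have key : ∀ e : K, ∑ σ ∈ S with (∃ z ∈ insert y N, σ z = e), wt a x σ =
        ∑ σ ∈ S with (∃ z ∈ N, σ z = e), wt a x σ +
        ∑ σ ∈ (S.filter (fun σ => ∀ z ∈ N, σ z ≠ σ y)) with σ y = e, wt a x σ := by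
      intro e
      rw [← sum_union]
      · apply sum_congr _ (fun _ _ => rfl)
        ext σ
        simp only [mem_filter, mem_union, mem_insert]
        constructor
        · rintro ⟨hσ, z, rfl | hz, he⟩
          · by_cases h : ∃ w ∈ N, σ w = e
            · exact Or.inl ⟨hσ, h⟩
            · refine Or.inr ⟨⟨hσ, ?_⟩, he⟩
              intro w hw hww
              exact h ⟨w, hw, hww.trans he⟩
          · exact Or.inl ⟨hσ, z, hz, he⟩
        · rintro (⟨hσ, z, hz, he⟩ | ⟨⟨hσ, _⟩, he⟩)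
          · exact ⟨hσ, z, Or.inr hz, he⟩
          · exact ⟨hσ, y, Or.inl rfl, he⟩
      · rw [Finset.disjoint_left]
        intro σ h1 h2
        simp only [mem_filter] at h1 h2
        obtain ⟨_, z, hz, he⟩ := h1
        exact h2.1.2 z hz (he.trans h2.2.symm)
    rw [key a, key c]
    apply add_le_add ih
    apply lemB (S.filter (fun σ => ∀ z ∈ N, σ z ≠ σ y)) a c Φ F haΦ hcΦ hac _ _ hcard y x hx0 hx1
    · intro d hd σ hσ
      rw [mem_filter] at hσ ⊢
      refine ⟨hS d hd σ hσ.1, ?_⟩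
      intro z hz h
      exact hσ.2 z hz ((Equiv.swap a d).injective h)
    · intro σ hσ
      rw [mem_filter] at hσ
      exact hF σ hσ.1

/-- Complementary form of the comparison lemma. -/
theorem lemA' (S : Finset (V → K)) (a c : K) (Φ : Finset K) (F : Finset V) (haΦ : a ∈ Φ)
    (hcΦ : c ∈ Φ) (hac : a ≠ c)
    (hS : ∀ d ∈ Φ, ∀ σ ∈ S, (fun v => Equiv.swap a d (σ v)) ∈ S)
    (hF : ∀ σ ∈ S, ∀ v, v ∉ F → σ v ∉ Φ)
    (hcard : F.card ≤ Φ.card) (x : ℝ) (hx0 : 0 ≤ x) (hx1 : x ≤ 1) (N : Finset V) :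
    ∑ σ ∈ S with (∀ y ∈ N, σ y ≠ c), wt a x σ ≤ ∑ σ ∈ S with (∀ y ∈ N, σ y ≠ a), wt a x σ := by
  classical
  have h := lemA S a c Φ F haΦ hcΦ hac hS hF hcard x hx0 hx1 N
  have key : ∀ e : K, ∑ σ ∈ S with (∀ y ∈ N, σ y ≠ e), wt a x σ =
      ∑ σ ∈ S, wt a x σ - ∑ σ ∈ S with (∃ y ∈ N, σ y = e), wt a x σ := by
    intro e
    have h1 := sum_filter_add_sum_filter_not S (fun σ : V → K => ∃ y ∈ N, σ y = e) (wt a x)
    rw [← h1, add_sub_cancel_left]
    apply sum_congr _ (fun _ _ => rfl)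
    ext σ
    simp only [mem_filter, not_exists, not_and]
  rw [key a, key c]
  linarith

end Pool.Agent.Run7.H86.CR
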