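import Pool.Agent.Run7.h86.ChromRatioA

/-!
The step from families of colourings to graphs: precoloured cliques.
-/

set_option autoImplicit false
set_option linter.unusedSectionVars false

namespace Pool.Agent.Run7.H86.CR

open Finset

variable {V K : Type*} [Fintype V] [DecidableEq V] [Fintype K] [DecidableEq K]

/-- the proper colourings of `G` with colours in `K` -/
def Col (G : SimpleGraph V) [DecidableRel G.Adj] (K : Type*) [Fintype K] [DecidableEq K] :
    Finset (V → K) :=
  univ.filter (fun σ => ∀ u v, G.Adj u v → σ u ≠ σ v)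

lemma mem_Col (G : SimpleGraph V) [DecidableRel G.Adj] (σ : V → K) :
    σ ∈ Col G K ↔ ∀ u v, G.Adj u v → σ u ≠ σ v := by
  simp [Col]

/-- restriction of a colouring to the vertices other than `k` -/
def res (k : V) (σ : V → K) : {w : V // w ≠ k} → K := fun w => σ w.1

/-- extension of a colouring by the colour `c` at `k` -/
def ext (k : V) (c : K) (τ : {w : V // w ≠ k} → K) : V → K :=
  fun w => if h : w = k then c else τ ⟨w, h⟩

lemma res_ext (k : V) (c : K) (τ : {w : V // w ≠ k} → K) : res k (ext k c τ) = τ := by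
  funext w
  simp [res, ext, w.2]

lemma ext_res (k : V) (c : K) (σ : V → K) (h : σ k = c) : ext k c (res k σ) = σ := by
  funext w
  by_cases hw : w = k
  · subst hw; simp [ext, h]
  · simp [res, ext, hw]

lemma ext_self (k : V) (c : K) (τ : {w : V // w ≠ k} → K) : ext k c τ k = c := by
  simp [ext]

lemma ext_ne (k : V) (c : K) (τ : {w : V // w ≠ k} → K) (w : V) (h : w ≠ k) :
    ext k c τ w = τ ⟨w, h⟩ := by
  simp [ext, h]

lemma cnt_res (k : V) (a : K) (σ : V → K) :
    cnt a σ = cnt a (res k σ) + (if σ k = a then 1 else 0) := by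
  classical
  unfold cnt
  have h1 : (univ.filter (fun v => σ v = a)).card =
      (((univ : Finset V).erase k).filter (fun v => σ v = a)).card +
        (if σ k = a then 1 else 0) := by
    have h2 : (univ : Finset V) = insert k ((univ : Finset V).erase k) := by
      rw [insert_erase (mem_univ k)]
    conv_lhs => rw [h2]
    rw [filter_insert]
    split_ifs with h
    · rw [card_insert_of_notMem]
      simp
    · simp
  rw [h1]
  congr 1
  symm
  refine Finset.card_bij (fun w _ => w.1) ?_ ?_ ?_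
  · intro w hw
    rw [mem_filter] at hw ⊢
    exact ⟨mem_erase.2 ⟨w.2, mem_univ _⟩, hw.2⟩
  · intro w _ w' _ h
    exact Subtype.ext h
  · intro v hv
    rw [mem_filter, mem_erase] at hv
    refine ⟨⟨v, hv.1.1⟩, ?_, rfl⟩
    rw [mem_filter]
    exact ⟨mem_univ _, hv.2⟩

/-- step (3): precoloured set `Q` with distinct colours, one free vertex `k`. -/
theorem step3 (G : SimpleGraph V) [DecidableRel G.Adj] (k : V) (Q : Finset V) (hk : k ∉ Q)
    (γ : V → K) (hγ : Set.InjOn γ Q) (a c : K) (hac : a ≠ c) (ha : a ∉ Q.image γ)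
    (hc : c ∉ Q.image γ) (hcard : Fintype.card V ≤ Fintype.card K + 1)
    (x : ℝ) (hx0 : 0 ≤ x) (hx1 : x ≤ 1) :
    x * ∑ σ ∈ (Col G K).filter (fun σ => ∀ w ∈ Q, σ w = γ w) with σ k = c, wt a x σ ≤
      ∑ σ ∈ (Col G K).filter (fun σ => ∀ w ∈ Q, σ w = γ w) with σ k = a, wt a x σ := by
  classical
  set S : Finset ({w : V // w ≠ k} → K) :=
    univ.filter (fun τ => (∀ u v : {w : V // w ≠ k}, G.Adj u.1 v.1 → τ u ≠ τ v) ∧
      ∀ w : {w : V // w ≠ k}, w.1 ∈ Q → τ w = γ w.1) with hS
  set N : Finset {w : V // w ≠ k} := univ.filter (fun w => G.Adj k w.1) with hN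
  set Φ : Finset K := univ \ Q.image γ with hΦ
  set F : Finset {w : V // w ≠ k} := univ.filter (fun w => w.1 ∉ Q) with hF
  have haΦ : a ∈ Φ := by rw [hΦ, mem_sdiff]; exact ⟨mem_univ _, ha⟩
  have hcΦ : c ∈ Φ := by rw [hΦ, mem_sdiff]; exact ⟨mem_univ _, hc⟩
  have hFc : F.card + Q.card + 1 = Fintype.card V := by
    have h1 : F.card + (univ.filter (fun w : {w : V // w ≠ k} => ¬ (w.1 ∉ Q))).card =
        (univ : Finset {w : V // w ≠ k}).card := Finset.card_filter_add_card_filter_not _
    have h2 : (univ.filter (fun w : {w : V // w ≠ k} => ¬ (w.1 ∉ Q))).card = Q.card := by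
      refine Finset.card_bij (fun w _ => w.1) ?_ ?_ ?_
      · intro w hw
        rw [mem_filter, not_not] at hw
        exact hw.2
      · intro w _ w' _ h
        exact Subtype.ext h
      · intro v hv
        refine ⟨⟨v, fun h => hk (h ▸ hv)⟩, ?_, rfl⟩
        rw [mem_filter, not_not]
        exact ⟨mem_univ _, hv⟩
    have h3 : (univ : Finset {w : V // w ≠ k}).card + 1 = Fintype.card V := by
      rw [Finset.card_univ, Fintype.card_subtype_compl, Fintype.card_subtype_eq]
      have : 1 ≤ Fintype.card V := Fintype.card_pos_iff.2 ⟨k⟩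
      omega
    omega
  have hΦc : Φ.card + Q.card = Fintype.card K := by
    have h1 : Φ.card = Fintype.card K - Q.card := by
      rw [hΦ, card_univ_sdiff, card_image_of_injOn hγ]
    have h2 : Q.card ≤ Fintype.card K := by
      rw [← card_image_of_injOn hγ]
      exact card_le_univ _
    omega
  have hle := lemA' S a c Φ F haΦ hcΦ hac ?_ ?_ (by omega) x hx0 hx1 N
  rotate_left
  · intro d hd τ hτ
    rw [hS, mem_filter] at hτ ⊢
    refine ⟨mem_univ _, ?_, ?_⟩
    · intro u v huv h
      exact hτ.2.1 u v huv ((Equiv.swap a d).injective h)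
    · intro w hw
      show Equiv.swap a d (τ w) = γ w.1
      rw [hτ.2.2 w hw]
      rw [hΦ, mem_sdiff] at haΦ hd
      apply Equiv.swap_apply_of_ne_of_ne
      · intro h
        exact haΦ.2 (mem_image.2 ⟨w.1, hw, h⟩)
      · intro h
        exact hd.2 (mem_image.2 ⟨w.1, hw, h⟩)
  · intro τ hτ w hw
    rw [hS, mem_filter] at hτ
    rw [hF, mem_filter, not_and, not_not] at hw
    have hwQ := hw (mem_univ _)
    rw [hτ.2.2 w hwQ, hΦ, mem_sdiff]
    intro h
    exact h.2 (mem_image.2 ⟨w.1, hwQ, rfl⟩)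
  -- translation
  have key : ∀ e : K, ∑ σ ∈ (Col G K).filter (fun σ => ∀ w ∈ Q, σ w = γ w) with σ k = e, wt a x σ
      = (if e = a then x else 1) * ∑ τ ∈ S with (∀ y ∈ N, τ y ≠ e), wt a x τ := by
    intro e
    rw [mul_sum]
    refine Finset.sum_bij' (fun σ _ => res k σ) (fun τ _ => ext k e τ) ?_ ?_ ?_ ?_ ?_
    · intro σ hσ
      rw [mem_filter, mem_filter, mem_Col] at hσ
      obtain ⟨⟨h1, h2⟩, h3⟩ := hσ
      rw [mem_filter, hS, mem_filter]
      refine ⟨⟨mem_univ _, fun u v huv => h1 u.1 v.1 huv, fun w hw => h2 w.1 hw⟩, ?_⟩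
      intro y hy h
      rw [hN, mem_filter] at hy
      exact h1 k y.1 hy.2 (h3.trans h.symm)
    · intro τ hτ
      rw [mem_filter, hS, mem_filter] at hτ
      obtain ⟨⟨_, h1, h2⟩, h3⟩ := hτ
      rw [mem_filter, mem_filter, mem_Col]
      refine ⟨⟨?_, ?_⟩, ext_self k e τ⟩
      · intro u v huv
        by_cases hu : u = k
        · have hv : v ≠ k := by
            rintro rfl
            subst hu
            exact G.loopless.irrefl _ huv
          subst hu
          rw [ext_self, ext_ne u e τ v hv]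
          exact (h3 ⟨v, hv⟩ (by rw [hN, mem_filter]; exact ⟨mem_univ _, huv⟩)).symm
        · by_cases hv : v = k
          · subst hv
            rw [ext_self, ext_ne v e τ u hu]
            exact h3 ⟨u, hu⟩ (by rw [hN, mem_filter]; exact ⟨mem_univ _, huv.symm⟩)
          · rw [ext_ne k e τ u hu, ext_ne k e τ v hv]
            exact h1 ⟨u, hu⟩ ⟨v, hv⟩ huv
      · intro w hw
        have hwk : w ≠ k := fun h => hk (h ▸ hw)
        rw [ext_ne k e τ w hwk]
        exact h2 ⟨w, hwk⟩ hw
    · intro σ hσ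
      rw [mem_filter] at hσ
      exact ext_res k e σ hσ.2
    · intro τ _
      exact res_ext k e τ
    · intro σ hσ
      rw [mem_filter] at hσ
      unfold wt
      rw [cnt_res k a σ, hσ.2]
      split_ifs with h
      · rw [pow_succ]; ring
      · rw [add_zero, one_mul]
  rw [key c, key a, if_pos rfl, if_neg hac.symm, one_mul]
  exact mul_le_mul_of_nonneg_left hle hx0

/-- step (5): clique `Q ∪ {k}`. -/
theorem step5 (G : SimpleGraph V) [DecidableRel G.Adj] (k : V) (Q : Finset V) (hk : k ∉ Q)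
    (hcl : ∀ u ∈ insert k Q, ∀ v ∈ insert k Q, u ≠ v → G.Adj u v)
    (a : K) (hcard : Fintype.card V ≤ Fintype.card K + 1)
    (x : ℝ) (hx0 : 0 ≤ x) (hx1 : x ≤ 1) :
    x * ∑ σ ∈ (Col G K) with (∀ w ∈ insert k Q, σ w ≠ a), wt a x σ ≤
      ((Fintype.card K : ℝ) - (Q.card + 1)) * ∑ σ ∈ (Col G K) with σ k = a, wt a x σ := by
  classical
  -- group by the restriction to `Q`
  set r : (V → K) → (V → K) := fun σ w => if w ∈ Q then σ w else a with hr
  have e1 := Finset.sum_fiberwise ((Col G K).filter (fun σ => ∀ w ∈ insert k Q, σ w ≠ a)) r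
    (wt a x)
  have e2 := Finset.sum_fiberwise ((Col G K).filter (fun σ => σ k = a)) r (wt a x)
  rw [← e1, ← e2, mul_sum, mul_sum]
  apply sum_le_sum
  intro γ _
  have hrγ : ∀ σ : V → K, r σ = γ → ∀ w ∈ Q, σ w = γ w := by
    intro σ h w hw
    rw [← h, hr]
    simp [hw]
  by_cases hne : ∃ σ ∈ (Col G K), r σ = γ ∧ ∀ w ∈ insert k Q, σ w ≠ a
  swap
  · have h1 : (((Col G K).filter (fun σ => ∀ w ∈ insert k Q, σ w ≠ a)).filter
        (fun σ => r σ = γ)) = ∅ := by
      rw [filter_eq_empty_iff]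
      intro σ hσ h
      rw [mem_filter] at hσ
      exact hne ⟨σ, hσ.1, h, hσ.2⟩
    rw [h1, sum_empty, mul_zero]
    by_cases hQ : (Q.card + 1 : ℕ) ≤ Fintype.card K
    · apply mul_nonneg
      · have : ((Q.card + 1 : ℕ) : ℝ) ≤ (Fintype.card K : ℝ) := by exact_mod_cast hQ
        push_cast at this
        linarith
      · exact sum_nonneg (fun σ _ => wt_nonneg a hx0 σ)
    · have h2 : (((Col G K).filter (fun σ => σ k = a)).filter (fun σ => r σ = γ)) = ∅ := by
        rw [filter_eq_empty_iff]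
        intro σ hσ _
        rw [mem_filter, mem_Col] at hσ
        apply hQ
        have hinj : Set.InjOn σ (insert k Q : Finset V) := by
          intro u hu v hv huv
          by_contra hne
          exact hσ.1 u v (hcl u hu v hv hne) huv
        rw [← card_insert_of_notMem hk, ← card_image_of_injOn hinj]
        exact card_le_univ _
      rw [h2, sum_empty, mul_zero]
  obtain ⟨σ₀, hσ₀, hrσ₀, hσ₀a⟩ := hne
  rw [mem_Col] at hσ₀
  have hγσ₀ := hrγ σ₀ hrσ₀
  have hγinj : Set.InjOn γ Q := by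
    intro u hu v hv huv
    by_contra hne
    have := hcl u (mem_insert_of_mem hu) v (mem_insert_of_mem hv) hne
    apply hσ₀ u v this
    rw [hγσ₀ u hu, hγσ₀ v hv, huv]
  have hγa : a ∉ Q.image γ := by
    rw [mem_image]
    rintro ⟨w, hw, h⟩
    apply hσ₀a w (mem_insert_of_mem hw)
    rw [hγσ₀ w hw, h]
  -- the fibre condition
  have hfib : ∀ p : (V → K) → Prop, ∀ [DecidablePred p],
      (((Col G K).filter p).filter (fun σ => r σ = γ)) =
      ((Col G K).filter (fun σ => ∀ w ∈ Q, σ w = γ w)).filter p := by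
    intro p _
    ext σ
    simp only [mem_filter]
    constructor
    · rintro ⟨⟨h1, h2⟩, h3⟩
      exact ⟨⟨h1, hrγ σ h3⟩, h2⟩
    · rintro ⟨⟨h1, h2⟩, h3⟩
      refine ⟨⟨h1, h3⟩, ?_⟩
      rw [← hrσ₀]
      funext w
      simp only [hr]
      split_ifs with hw
      · rw [h2 w hw, hγσ₀ w hw]
      · rfl
  rw [hfib, hfib]
  -- sum over the colours of `k`
  set D : Finset K := univ \ (insert a (Q.image γ)) with hD
  have hDc : (D.card : ℝ) = (Fintype.card K : ℝ) - (Q.card + 1) := by
    have h1 : (insert a (Q.image γ)).card = Q.card + 1 := by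
      rw [card_insert_of_notMem hγa, card_image_of_injOn hγinj]
    have h2 : (insert a (Q.image γ)).card ≤ Fintype.card K := card_le_univ _
    rw [hD, card_univ_sdiff, Nat.cast_sub h2, h1]
    push_cast
    ring
  have hmaps : ∀ σ ∈ ((Col G K).filter (fun σ => ∀ w ∈ Q, σ w = γ w)).filter
      (fun σ => ∀ w ∈ insert k Q, σ w ≠ a), σ k ∈ D := by
    intro σ hσ
    rw [mem_filter, mem_filter, mem_Col] at hσ
    obtain ⟨⟨h1, h2⟩, h3⟩ := hσ
    rw [hD, mem_sdiff, mem_insert, mem_image]
    refine ⟨mem_univ _, ?_⟩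
    rintro (h | ⟨w, hw, h⟩)
    · exact h3 k (mem_insert_self _ _) h
    · have hwk : w ≠ k := fun h' => hk (h' ▸ hw)
      apply h1 w k (hcl w (mem_insert_of_mem hw) k (mem_insert_self _ _) hwk)
      rw [h2 w hw, h]
  rw [← sum_fiberwise_of_maps_to hmaps, mul_sum, ← hDc, ← nsmul_eq_mul, ← sum_const]
  apply sum_le_sum
  intro c hc
  rw [hD, mem_sdiff, mem_insert, not_or] at hc
  have h3 := step3 G k Q hk γ hγinj a c (Ne.symm hc.2.1) hγa hc.2.2 hcard x hx0 hx1
  refine le_trans (mul_le_mul_of_nonneg_left ?_ hx0) h3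
  apply sum_le_sum_of_subset_of_nonneg
  · intro σ hσ
    rw [mem_filter] at hσ ⊢
    rw [mem_filter] at hσ
    exact ⟨hσ.1.1, hσ.2⟩
  · intro σ _ _
    exact wt_nonneg a hx0 σ

end Pool.Agent.Run7.H86.CR
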