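import Pool.Agent.Run7.h86.ChromRatioB

/-!
The differential inequality and the ratio bound.
-/

set_option autoImplicit false
set_option linter.unusedSectionVars false

namespace Pool.Agent.Run7.H86.CR

open Finset

variable {V K : Type*} [Fintype V] [DecidableEq V] [Fintype K] [DecidableEq K]

/-- the weighted number of colourings -/
noncomputable def Z (G : SimpleGraph V) [DecidableRel G.Adj] (K : Type*) [Fintype K]
    [DecidableEq K] (a : K) (x : ℝ) : ℝ := ∑ σ ∈ Col G K, wt a x σ

/-- the derivative of `Z`, multiplied by `x` -/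
noncomputable def A (G : SimpleGraph V) [DecidableRel G.Adj] (K : Type*) [Fintype K]
    [DecidableEq K] (a : K) (x : ℝ) (v : V) : ℝ := ∑ σ ∈ (Col G K) with σ v = a, wt a x σ

lemma sum_A (G : SimpleGraph V) [DecidableRel G.Adj] (a : K) (x : ℝ) :
    ∑ v, A G K a x v = ∑ σ ∈ Col G K, (cnt a σ : ℝ) * wt a x σ := by
  unfold A
  simp_rw [sum_filter]
  rw [sum_comm]
  apply sum_congr rfl
  intro σ _
  rw [← sum_filter, sum_const, nsmul_eq_mul]
  rfl

lemma vertex_bound (G : SimpleGraph V) [DecidableRel G.Adj] (a : K) (v : V)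
    (hcard : Fintype.card V ≤ Fintype.card K + 1) (x : ℝ) (hx0 : 0 ≤ x) (hx1 : x ≤ 1) :
    x * Z G K a x ≤ ((Fintype.card K : ℝ) - 1 + x) * A G K a x v := by
  have h := step5 G v ∅ (by simp) (by
    intro u hu w hw huw
    simp only [insert_empty_eq, mem_singleton] at hu hw
    exact absurd (hu.trans hw.symm) huw) a hcard x hx0 hx1
  have e : ∑ σ ∈ (Col G K) with (∀ w ∈ insert v (∅ : Finset V), σ w ≠ a), wt a x σ =
      Z G K a x - A G K a x v := by
    have h1 := sum_filter_add_sum_filter_not (Col G K) (fun σ : V → K => σ v = a) (wt a x)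
    unfold Z A
    rw [← h1, add_sub_cancel_left]
    apply sum_congr _ (fun _ _ => rfl)
    ext σ
    simp
  rw [e] at h
  have e2 : (∑ σ ∈ (Col G K) with σ v = a, wt a x σ) = A G K a x v := rfl
  rw [e2] at h
  simp only [card_empty, Nat.cast_zero, zero_add] at h
  nlinarith

lemma clique_bound (G : SimpleGraph V) [DecidableRel G.Adj] (a : K) (C : Finset V)
    (hC : ∀ u ∈ C, ∀ v ∈ C, u ≠ v → G.Adj u v)
    (hcard : Fintype.card V ≤ Fintype.card K + 1) (x : ℝ) (hx0 : 0 ≤ x) (hx1 : x ≤ 1) :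
    (C.card : ℝ) * x * Z G K a x ≤
      ((Fintype.card K : ℝ) - C.card + C.card * x) * ∑ v ∈ C, A G K a x v := by
  classical
  -- the colourings not using `a` on the clique
  have e : ∑ σ ∈ (Col G K) with (∀ w ∈ C, σ w ≠ a), wt a x σ =
      Z G K a x - ∑ v ∈ C, A G K a x v := by
    have h1 := sum_filter_add_sum_filter_not (Col G K) (fun σ : V → K => ∃ w ∈ C, σ w = a)
      (wt a x)
    have h2 : ∑ σ ∈ (Col G K) with (∃ w ∈ C, σ w = a), wt a x σ = ∑ v ∈ C, A G K a x v := by
      unfold A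
      rw [← sum_biUnion]
      · apply sum_congr _ (fun _ _ => rfl)
        ext σ
        simp only [mem_filter, mem_biUnion]
        constructor
        · rintro ⟨h, w, hw, hwa⟩
          exact ⟨w, hw, h, hwa⟩
        · rintro ⟨w, hw, h, hwa⟩
          exact ⟨h, w, hw, hwa⟩
      · intro u hu v hv huv
        show Disjoint ((Col G K).filter (fun σ => σ u = a)) ((Col G K).filter (fun σ => σ v = a))
        rw [Finset.disjoint_left]
        intro σ h1 h2
        rw [mem_filter, mem_Col] at h1 h2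
        exact h1.1 u v (hC u hu v hv huv) (h1.2.trans h2.2.symm)
    unfold Z
    rw [← h1, h2, add_sub_cancel_left]
    apply sum_congr _ (fun _ _ => rfl)
    ext σ
    simp
  have h5 : ∀ v ∈ C, x * (Z G K a x - ∑ v ∈ C, A G K a x v) ≤
      ((Fintype.card K : ℝ) - C.card) * A G K a x v := by
    intro v hv
    have hins : insert v (C.erase v) = C := insert_erase hv
    have h := step5 G v (C.erase v) (by simp) (by rw [hins]; exact hC) a hcard x hx0 hx1
    rw [hins, e] at h
    have hc : ((C.erase v).card : ℝ) + 1 = C.card := by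
      rw [← Nat.cast_succ]
      congr 1
      have := card_erase_add_one hv
      omega
    rw [hc] at h
    exact h
  have hs := sum_le_sum h5
  rw [sum_const, ← mul_sum, nsmul_eq_mul] at hs
  nlinarith

/-- The denominator -/
noncomputable def D (n w : ℕ) (q x : ℝ) : ℝ := (q - 1 + x) ^ n * (q - w + w * x)

lemma Z_nonneg (G : SimpleGraph V) [DecidableRel G.Adj] (a : K) (x : ℝ) (hx : 0 ≤ x) :
    0 ≤ Z G K a x := sum_nonneg (fun σ _ => wt_nonneg a hx σ)

/-- the key inequality at `x > 0` -/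
lemma log_deriv_bound (G : SimpleGraph V) [DecidableRel G.Adj] (a : K) (C : Finset V)
    (hC : ∀ u ∈ C, ∀ v ∈ C, u ≠ v → G.Adj u v)
    (hcard : Fintype.card V ≤ Fintype.card K + 1) (x : ℝ) (hx0 : 0 < x) (hx1 : x ≤ 1)
    (hq : 1 ≤ (Fintype.card K : ℝ)) (hCK : C = ∅ ∨ (C.card : ℝ) ≤ Fintype.card K) :
    (((Fintype.card V : ℝ) - C.card) / ((Fintype.card K : ℝ) - 1 + x) +
      C.card / ((Fintype.card K : ℝ) - C.card + C.card * x)) * Z G K a x ≤
    ∑ σ ∈ Col G K, (cnt a σ : ℝ) * x ^ (cnt a σ - 1) := by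
  classical
  have h1 : ∑ σ ∈ Col G K, (cnt a σ : ℝ) * wt a x σ =
      x * ∑ σ ∈ Col G K, (cnt a σ : ℝ) * x ^ (cnt a σ - 1) := by
    rw [mul_sum]
    apply sum_congr rfl
    intro σ _
    unfold wt
    rcases Nat.eq_zero_or_pos (cnt a σ) with h | h
    · rw [h]; simp
    · obtain ⟨m, hm⟩ := Nat.exists_eq_add_of_lt h
      rw [hm]
      simp only [zero_add, Nat.add_sub_cancel]
      ring
  have h2 : ∑ v ∈ univ \ C, A G K a x v + ∑ v ∈ C, A G K a x v =
      ∑ σ ∈ Col G K, (cnt a σ : ℝ) * wt a x σ := by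
    rw [← sum_A, sum_sdiff (subset_univ C)]
  have hd1 : 0 < (Fintype.card K : ℝ) - 1 + x := by linarith
  have h3 : ∀ v ∈ univ \ C, x * Z G K a x / ((Fintype.card K : ℝ) - 1 + x) ≤ A G K a x v := by
    intro v _
    rw [div_le_iff₀ hd1]
    have := vertex_bound G a v hcard x hx0.le hx1
    linarith
  have h3' := sum_le_sum h3
  rw [sum_const, card_univ_sdiff, nsmul_eq_mul, Nat.cast_sub (card_le_univ _)] at h3'
  have h4 : C.card * x * Z G K a x / ((Fintype.card K : ℝ) - C.card + C.card * x) ≤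
      ∑ v ∈ C, A G K a x v := by
    rcases hCK with rfl | hCK
    · simp
    by_cases hC0 : C = ∅
    · subst hC0; simp
    · have hC1 : (1 : ℝ) ≤ C.card := by
        exact_mod_cast Finset.card_pos.2 (Finset.nonempty_of_ne_empty hC0)
      have hd2 : 0 < (Fintype.card K : ℝ) - C.card + C.card * x := by nlinarith
      rw [div_le_iff₀ hd2]
      have := clique_bound G a C hC hcard x hx0.le hx1
      linarith
  have h5 : x * ((((Fintype.card V : ℝ) - C.card) / ((Fintype.card K : ℝ) - 1 + x) +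
      C.card / ((Fintype.card K : ℝ) - C.card + C.card * x)) * Z G K a x) ≤
      x * ∑ σ ∈ Col G K, (cnt a σ : ℝ) * x ^ (cnt a σ - 1) := by
    rw [← h1, ← h2]
    refine le_trans (le_of_eq ?_) (add_le_add h3' h4)
    ring
  exact le_of_mul_le_mul_left h5 hx0

lemma Z_hasDeriv (G : SimpleGraph V) [DecidableRel G.Adj] (a : K) (x : ℝ) :
    HasDerivAt (Z G K a) (∑ σ ∈ Col G K, (cnt a σ : ℝ) * x ^ (cnt a σ - 1)) x := by
  unfold Z wt
  apply HasDerivAt.fun_sum
  intro σ _
  exact hasDerivAt_pow _ _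

/-- The main comparison. -/
theorem ratio_bound (G : SimpleGraph V) [DecidableRel G.Adj] (a : K) (C : Finset V)
    (hC : ∀ u ∈ C, ∀ v ∈ C, u ≠ v → G.Adj u v)
    (hcard : Fintype.card V ≤ Fintype.card K)
    (hq : 1 ≤ (Fintype.card K : ℝ)) :
    Z G K a 0 * D (Fintype.card V - C.card) C.card (Fintype.card K) 1 ≤
      Z G K a 1 * D (Fintype.card V - C.card) C.card (Fintype.card K) 0 := by
  classical
  set q : ℝ := (Fintype.card K : ℝ) with hqdef
  set m : ℕ := Fintype.card V - C.card with hm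
  set w : ℕ := C.card with hw
  have hwV : w ≤ Fintype.card V := card_le_univ _
  have hwq : (w : ℝ) ≤ q := by
    rw [hqdef]; exact_mod_cast hwV.trans hcard
  have hmr : (m : ℝ) = (Fintype.card V : ℝ) - w := by
    rw [hm, Nat.cast_sub hwV]
  have hd2 : ∀ x : ℝ, 0 < x → x ≤ 1 → 0 < q - w + w * x := by
    intro x hx0 hx1
    by_cases h0 : w = 0
    · rw [h0]; push_cast; linarith
    · have : (1 : ℝ) ≤ w := by exact_mod_cast Nat.one_le_iff_ne_zero.2 h0
      nlinarith
  have hD : ∀ x : ℝ, 0 < x → x ≤ 1 → 0 < D m w q x := by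
    intro x hx0 hx1
    unfold D
    have h1 : 0 < q - 1 + x := by linarith
    exact mul_pos (pow_pos h1 _) (hd2 x hx0 hx1)
  have hDd : ∀ x : ℝ, 0 < x → x ≤ 1 → HasDerivAt (D m w q)
      (D m w q x * ((m : ℝ) / (q - 1 + x) + w / (q - w + w * x))) x := by
    intro x hx0 hx1
    have h1 : 0 < q - 1 + x := by linarith
    have h2 := hd2 x hx0 hx1
    have e1 : HasDerivAt (fun y : ℝ => q - 1 + y) 1 x := by
      simpa using (hasDerivAt_id x).const_add (q - 1)
    have e2 : HasDerivAt (fun y : ℝ => (q - 1 + y) ^ m) ((m : ℝ) * (q - 1 + x) ^ (m - 1) * 1) x :=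
      e1.fun_pow m
    have e3 : HasDerivAt (fun y : ℝ => q - w + w * y) (w : ℝ) x := by
      have := ((hasDerivAt_id x).const_mul (w : ℝ)).const_add (q - w)
      simpa using this
    have e4 := e2.fun_mul e3
    have e5 : D m w q x * ((m : ℝ) / (q - 1 + x) + w / (q - w + w * x)) =
        (m : ℝ) * (q - 1 + x) ^ (m - 1) * 1 * (q - w + w * x) + (q - 1 + x) ^ m * w := by
      unfold D
      generalize hR : q - w + w * x = R at h2
      generalize hP : q - 1 + x = P at h1
      rcases Nat.eq_zero_or_pos m with h | h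
      · rw [h]
        have := h2.ne'
        have := h1.ne'
        simp
        field_simp
      · obtain ⟨m', hm'⟩ := Nat.exists_eq_add_of_lt h
        rw [hm']
        have := h2.ne'
        have := h1.ne'
        simp only [zero_add, Nat.add_sub_cancel, pow_succ]
        field_simp
    rw [e5]
    exact e4
  -- monotonicity of Z / D on (0, 1]
  have hmono : MonotoneOn (fun x => Z G K a x / D m w q x) (Set.Ioc 0 1) := by
    apply monotoneOn_of_deriv_nonneg (convex_Ioc 0 1)
    · intro x hx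
      apply ContinuousAt.continuousWithinAt
      exact ((Z_hasDeriv G a x).continuousAt).div ((hDd x hx.1 hx.2).continuousAt)
        (hD x hx.1 hx.2).ne'
    · rw [interior_Ioc]
      intro x hx
      apply DifferentiableAt.differentiableWithinAt
      exact ((Z_hasDeriv G a x).differentiableAt).div ((hDd x hx.1 hx.2.le).differentiableAt)
        (hD x hx.1 hx.2.le).ne'
    · rw [interior_Ioc]
      intro x hx
      have hd := (Z_hasDeriv G a x).fun_div (hDd x hx.1 hx.2.le) (hD x hx.1 hx.2.le).ne'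
      rw [hd.deriv]
      apply div_nonneg _ (sq_nonneg _)
      have hb := log_deriv_bound G a C hC (by omega) x hx.1 hx.2.le hq (Or.inr hwq)
      rw [← hmr] at hb
      have := mul_le_mul_of_nonneg_left hb (hD x hx.1 hx.2.le).le
      linarith
  have hle : ∀ x ∈ Set.Ioc (0 : ℝ) 1, Z G K a x * D m w q 1 ≤ Z G K a 1 * D m w q x := by
    intro x hx
    have h := hmono hx (Set.right_mem_Ioc.2 one_pos) hx.2
    have h' : Z G K a x / D m w q x ≤ Z G K a 1 / D m w q 1 := h
    rw [div_le_div_iff₀ (hD x hx.1 hx.2) (hD 1 one_pos le_rfl)] at h'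
    exact h'
  -- continuity at 0
  have hZc : Continuous (Z G K a) :=
    continuous_iff_continuousAt.2 (fun x => (Z_hasDeriv G a x).continuousAt)
  have hDc : Continuous (D m w q) := by unfold D; fun_prop
  have hcl : IsClosed {x : ℝ | Z G K a x * D m w q 1 ≤ Z G K a 1 * D m w q x} :=
    isClosed_le (hZc.mul continuous_const) (continuous_const.mul hDc)
  have hsub : closure (Set.Ioc (0 : ℝ) 1) ⊆
      {x : ℝ | Z G K a x * D m w q 1 ≤ Z G K a 1 * D m w q x} :=
    hcl.closure_subset_iff.2 (fun x hx => hle x hx)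
  rw [closure_Ioc (by norm_num : (0 : ℝ) ≠ 1)] at hsub
  exact hsub (Set.left_mem_Icc.2 zero_le_one)

end Pool.Agent.Run7.H86.CR
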